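import Pool.Agent.BCS.Stmts

/-!
# Row APX of squad BCS: approximation of antiperiodic functions

`X'` is approximated by `Xf p` (density of the trigonometric polynomials for the continuous periodic
function `e^{iθ/2} X'`), `Xf p` has an antiderivative `Xf P` (there is no frequency zero) and
`D = Xf P - X` satisfies `D(θ + 2π) = -D(θ)`, so `2 |D| ≤ 2π sup |D'|`.
-/

noncomputable section

open scoped ContDiff Topology ComplexConjugate
open Set MeasureTheory

namespace Pool.Agent.BCS.H37

open Pool.Agent.BCS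

theorem Xf_ev (p : Polynomial ℂ) (θ : ℝ) : Xf (fun z => p.eval z) θ =
    (Complex.exp ((θ / 2 : ℝ) * Complex.I) * p.eval (Complex.exp (θ * Complex.I))).re := rfl

theorem Xf_add (p q : Polynomial ℂ) (θ : ℝ) :
    Xf (fun z => (p + q).eval z) θ = Xf (fun z => p.eval z) θ + Xf (fun z => q.eval z) θ := by
  rw [Xf_ev, Xf_ev, Xf_ev, Polynomial.eval_add, mul_add, Complex.add_re]

/-- one term of a trigonometric polynomial -/
theorem term (k : ℤ) (c : ℂ) : ∃ p : Polynomial ℂ, ∀ θ : ℝ,
    Xf (fun z => p.eval z) θ =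
      (Complex.exp (-((θ / 2 : ℝ) * Complex.I)) * (c * Complex.exp (k * θ * Complex.I))).re := by
  rcases le_or_gt 1 k with hk | hk
  · obtain ⟨n, hn⟩ := Int.eq_ofNat_of_zero_le (show 0 ≤ k - 1 by omega)
    have hk' : k = n + 1 := by omega
    refine ⟨Polynomial.monomial n c, fun θ => ?_⟩
    rw [Xf_ev, Polynomial.eval_monomial, ← Complex.exp_nat_mul, hk']
    congr 1
    rw [mul_left_comm, mul_left_comm (Complex.exp (-((θ / 2 : ℝ) * Complex.I))), ← Complex.exp_add,
      ← Complex.exp_add]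
    congr 2
    push_cast
    ring
  · obtain ⟨n, hn⟩ := Int.eq_ofNat_of_zero_le (show 0 ≤ -k by omega)
    have hk' : k = -n := by omega
    refine ⟨Polynomial.monomial n (conj c), fun θ => ?_⟩
    rw [Xf_ev, Polynomial.eval_monomial, ← Complex.exp_nat_mul, hk', ← Complex.conj_re]
    congr 1
    rw [map_mul, map_mul, ← Complex.exp_conj, ← Complex.exp_conj, Complex.conj_conj]
    have e1 : conj (((θ / 2 : ℝ) : ℂ) * Complex.I) = -(((θ / 2 : ℝ) : ℂ) * Complex.I) := by
      rw [map_mul, Complex.conj_ofReal, Complex.conj_I, mul_neg]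
    have e2 : conj ((n : ℂ) * ((θ : ℂ) * Complex.I)) = ((-(n : ℤ) : ℤ) : ℂ) * θ * Complex.I := by
      rw [map_mul, map_mul, Complex.conj_ofReal, Complex.conj_I, map_natCast]
      push_cast
      ring
    rw [e1, e2]

/-- the real part of `e^{-iθ/2}` times a trigonometric polynomial -/
theorem terms (s : Finset ℤ) (c : ℤ → ℂ) : ∃ p : Polynomial ℂ, ∀ θ : ℝ,
    Xf (fun z => p.eval z) θ = (Complex.exp (-((θ / 2 : ℝ) * Complex.I)) *
      ∑ k ∈ s, c k * Complex.exp (k * θ * Complex.I)).re := by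
  classical
  induction s using Finset.induction_on with
  | empty =>
    refine ⟨0, fun θ => ?_⟩
    simp [Xf]
  | insert a s ha ih =>
    obtain ⟨p, hp⟩ := ih
    obtain ⟨q, hq⟩ := term a (c a)
    refine ⟨q + p, fun θ => ?_⟩
    rw [Xf_add, hp, hq, Finset.sum_insert ha, mul_add, Complex.add_re]

/-- the antiderivative -/
theorem anti (p : Polynomial ℂ) : ∃ P : Polynomial ℂ, ∀ θ : ℝ,
    HasDerivAt (Xf (fun z => P.eval z)) (Xf (fun z => p.eval z) θ) θ := by
  induction p using Polynomial.induction_on' with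
  | add p q hp hq =>
    obtain ⟨P, hP⟩ := hp
    obtain ⟨Q, hQ⟩ := hq
    refine ⟨P + Q, fun θ => ?_⟩
    rw [Xf_add]
    have h := (hP θ).add (hQ θ)
    have h2 : Xf (fun z => (P + Q).eval z) =
        (Xf (fun z => P.eval z)) + (Xf (fun z => Q.eval z)) := by
      funext t; exact Xf_add P Q t
    rw [h2]
    exact h
  | monomial n a =>
    have h0 : ((n : ℂ) + 1 / 2) ≠ 0 := by
      intro h
      have h1 := congrArg Complex.re h
      simp at h1
      have h2 : (0 : ℝ) ≤ n := Nat.cast_nonneg n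
      linarith
    have h1 : Complex.I * ((n : ℂ) + 1 / 2) ≠ 0 := mul_ne_zero Complex.I_ne_zero h0
    have hform : ∀ (b : ℂ) (θ : ℝ), Xf (fun z => (Polynomial.monomial n b).eval z) θ =
        (b * Complex.exp (Complex.I * ((n : ℂ) + 1 / 2) * θ)).re := by
      intro b θ
      rw [Xf_ev, Polynomial.eval_monomial, ← Complex.exp_nat_mul, mul_left_comm, ← Complex.exp_add]
      congr 3
      push_cast
      ring
    refine ⟨Polynomial.monomial n (a / (Complex.I * ((n : ℂ) + 1 / 2))), fun θ => ?_⟩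
    have h2 : Xf (fun z => (Polynomial.monomial n (a / (Complex.I * ((n : ℂ) + 1 / 2)))).eval z) =
        fun θ : ℝ => (a / (Complex.I * ((n : ℂ) + 1 / 2)) *
          Complex.exp (Complex.I * ((n : ℂ) + 1 / 2) * θ)).re := by
      funext t; exact hform _ t
    rw [h2, hform]
    have h3 : HasDerivAt (fun w : ℂ => a / (Complex.I * ((n : ℂ) + 1 / 2)) *
        Complex.exp (Complex.I * ((n : ℂ) + 1 / 2) * w))
        (a * Complex.exp (Complex.I * ((n : ℂ) + 1 / 2) * θ)) (θ : ℂ) := by
      have h4 := (((hasDerivAt_id (θ : ℂ)).const_mul (Complex.I * ((n : ℂ) + 1 / 2))).cexp).const_mul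
        (a / (Complex.I * ((n : ℂ) + 1 / 2)))
      refine h4.congr_deriv ?_
      simp only [id_eq]
      rw [mul_one, mul_comm (Complex.exp _), ← mul_assoc, div_mul_cancel₀ _ h1]
    exact h3.real_of_complex

/-- density of the trigonometric polynomials -/
theorem dense (G : ℝ → ℂ) (ε : ℝ) (hG : Continuous G) (hper : ∀ θ, G (θ + 2 * Real.pi) = G θ)
    (hε : 0 < ε) : ∃ (s : Finset ℤ) (c : ℤ → ℂ), ∀ θ : ℝ,
      ‖∑ k ∈ s, c k * Complex.exp (k * θ * Complex.I) - G θ‖ ≤ ε := by
  have : Fact ((0 : ℝ) < 2 * Real.pi) := ⟨by positivity⟩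
  have hp : Function.Periodic G (2 * Real.pi) := hper
  let F : C(AddCircle (2 * Real.pi), ℂ) :=
    ⟨hp.lift, continuous_coinduced_dom.2 (by exact hG)⟩
  have hF : F ∈ (Submodule.span ℂ (Set.range (@fourier (2 * Real.pi)))).topologicalClosure := by
    rw [span_fourier_closure_eq_top]
    trivial
  have hF2 : F ∈ closure ((Submodule.span ℂ (Set.range (@fourier (2 * Real.pi))) :
      Submodule ℂ C(AddCircle (2 * Real.pi), ℂ)) : Set C(AddCircle (2 * Real.pi), ℂ)) := hF
  obtain ⟨g, hg, hd⟩ := Metric.mem_closure_iff.1 hF2 ε hε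
  rw [SetLike.mem_coe, Finsupp.mem_span_range_iff_exists_finsupp] at hg
  obtain ⟨c, hc⟩ := hg
  refine ⟨c.support, c, fun θ => ?_⟩
  have h1 : ‖g (θ : AddCircle (2 * Real.pi)) - F (θ : AddCircle (2 * Real.pi))‖ ≤ ε := by
    rw [← dist_eq_norm, dist_comm]
    exact (ContinuousMap.dist_apply_le_dist _).trans hd.le
  have h2 : F (θ : AddCircle (2 * Real.pi)) = G θ := rfl
  have h3 : g (θ : AddCircle (2 * Real.pi)) =
      ∑ k ∈ c.support, c k * Complex.exp (k * θ * Complex.I) := by
    rw [← hc, Finsupp.sum, ContinuousMap.coe_sum, Finset.sum_apply]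
    apply Finset.sum_congr rfl
    intro k _
    rw [ContinuousMap.coe_smul, Pi.smul_apply, fourier_coe_apply, smul_eq_mul]
    congr 2
    have hpi : (Real.pi : ℂ) ≠ 0 := by exact_mod_cast Real.pi_ne_zero
    push_cast
    field_simp
  rw [← h3, ← h2]
  exact h1

theorem exp_half (θ : ℝ) : Complex.exp (((θ + 2 * Real.pi) / 2 : ℝ) * Complex.I) =
    -Complex.exp ((θ / 2 : ℝ) * Complex.I) := by
  have h : (((θ + 2 * Real.pi) / 2 : ℝ) : ℂ) * Complex.I =
      (θ / 2 : ℝ) * Complex.I + Real.pi * Complex.I := by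
    push_cast
    ring
  rw [h, Complex.exp_add, Complex.exp_pi_mul_I]
  ring

theorem Xf_anti (p : Polynomial ℂ) (θ : ℝ) :
    Xf (fun z => p.eval z) (θ + 2 * Real.pi) = -Xf (fun z => p.eval z) θ := by
  unfold Xf
  have h : cp (θ + 2 * Real.pi) = cp θ := by
    unfold cp
    have h1 : ((θ + 2 * Real.pi : ℝ) : ℂ) * Complex.I =
        θ * Complex.I + 2 * Real.pi * Complex.I := by
      push_cast
      ring
    rw [h1, Complex.exp_add, Complex.exp_two_pi_mul_I, mul_one]
  rw [h, exp_half, neg_mul, Complex.neg_re]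

theorem apx : ApxStmt := by
  intro X ε hX hXa hε
  have hXd : ∀ θ, HasDerivAt X (deriv X θ) θ := fun θ =>
    (hX.differentiable (by norm_num)).differentiableAt.hasDerivAt
  have hX' : Continuous (deriv X) := hX.continuous_deriv le_rfl
  have hXa' : ∀ θ, deriv X (θ + 2 * Real.pi) = -deriv X θ := by
    intro θ
    have h1 : (fun t => X (t + 2 * Real.pi)) = fun t => -X t := by
      funext t; exact hXa t
    have h2 := (hXd (θ + 2 * Real.pi)).comp_add_const θ (2 * Real.pi)
    rw [h1] at h2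
    exact h2.unique (hXd θ).neg
  -- the density
  obtain ⟨ε', hε', hle, hle2⟩ : ∃ ε' > 0, ε' ≤ ε ∧ ε' * Real.pi ≤ ε := by
    refine ⟨ε / 4, by positivity, by linarith, ?_⟩
    have := Real.pi_le_four
    nlinarith
  obtain ⟨s, c, hs⟩ := dense (fun θ => Complex.exp ((θ / 2 : ℝ) * Complex.I) * ((deriv X θ : ℝ) : ℂ)) ε'
    (by
      apply Continuous.mul
      · exact Complex.continuous_exp.comp
          ((Complex.continuous_ofReal.comp (continuous_id.div_const 2)).mul continuous_const)
      · exact Complex.continuous_ofReal.comp hX')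
    (by
      intro θ
      rw [exp_half, hXa']
      push_cast
      ring) hε'
  obtain ⟨p, hp⟩ := terms s c
  obtain ⟨P, hP⟩ := anti p
  have hclose : ∀ θ, |Xf (fun z => p.eval z) θ - deriv X θ| ≤ ε' := by
    intro θ
    have h1 : Xf (fun z => p.eval z) θ - deriv X θ =
        (Complex.exp (-((θ / 2 : ℝ) * Complex.I)) *
          (∑ k ∈ s, c k * Complex.exp (k * θ * Complex.I) -
            Complex.exp ((θ / 2 : ℝ) * Complex.I) * ((deriv X θ : ℝ) : ℂ))).re := by
      rw [hp, mul_sub, Complex.sub_re, ← mul_assoc, ← Complex.exp_add, neg_add_cancel,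
        Complex.exp_zero, one_mul, Complex.ofReal_re]
    rw [h1]
    refine (Complex.abs_re_le_norm _).trans ?_
    rw [norm_mul]
    have h2 : ‖Complex.exp (-((θ / 2 : ℝ) * Complex.I))‖ = 1 := by
      rw [← neg_mul, ← Complex.ofReal_neg]
      exact Complex.norm_exp_ofReal_mul_I _
    rw [h2, one_mul]
    exact hs θ
  refine ⟨P, fun θ => ⟨?_, ?_⟩⟩
  · -- D
    have hD : ∀ t, HasDerivAt (fun t => Xf (fun z => P.eval z) t - X t)
        (Xf (fun z => p.eval z) t - deriv X t) t := fun t => (hP t).sub (hXd t)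
    have h1 := Convex.norm_image_sub_le_of_norm_hasDerivWithin_le (s := Set.univ)
      (f := fun t => Xf (fun z => P.eval z) t - X t)
      (f' := fun t => Xf (fun z => p.eval z) t - deriv X t) (C := ε')
      (fun t _ => (hD t).hasDerivWithinAt) (fun t _ => by
        rw [Real.norm_eq_abs]; exact hclose t) convex_univ (Set.mem_univ θ)
      (Set.mem_univ (θ + 2 * Real.pi))
    rw [Xf_anti, hXa, Real.norm_eq_abs, Real.norm_eq_abs] at h1
    have h2 : -Xf (fun z => P.eval z) θ - -X θ - (Xf (fun z => P.eval z) θ - X θ) =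
        (-2) * (Xf (fun z => P.eval z) θ - X θ) := by ring
    have h3 : θ + 2 * Real.pi - θ = 2 * Real.pi := by ring
    rw [h2, h3, abs_mul, abs_of_pos (show (0 : ℝ) < 2 * Real.pi by positivity)] at h1
    have h4 : |(-2 : ℝ)| = 2 := by norm_num
    rw [h4] at h1
    nlinarith
  · rw [(hP θ).deriv]
    exact (hclose θ).trans hle

end Pool.Agent.BCS.H37
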