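import Pool.Agent.BCS.Stmts

/-!
# Row STW of squad BCS: Stone-Weierstrass on the closed disc
-/

noncomputable section

open scoped ContDiff Topology ComplexConjugate
open Set MeasureTheory

namespace Pool.Agent.BCS.H37

open Pool.Agent.BCS

/-- the closed unit disc -/
abbrev Dd : Set ℂ := Metric.closedBall (0 : ℂ) 1

/-- the coordinate function -/
def zc : C(Dd, ℂ) := Polynomial.toContinuousMapOnAlgHom Dd Polynomial.X

theorem zc_apply (z : Dd) : zc z = (z : ℂ) := by
  simp [zc]

/-- every element of the star subalgebra generated by `z` is a polynomial in `z`, `conj z` -/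
theorem form_of_mem {g : C(Dd, ℂ)} (hg : g ∈ (polynomialFunctions Dd).starClosure) :
    ∃ c : ℕ × ℕ →₀ ℂ, ∀ z : Dd, g z = ∑ i ∈ c.support, c i * (z : ℂ) ^ i.1 * conj (z : ℂ) ^ i.2 := by
  rw [polynomialFunctions.starClosure_eq_adjoin_X] at hg
  have h1 : g ∈ (StarAlgebra.adjoin ℂ {zc}).toSubalgebra := hg
  rw [StarAlgebra.adjoin_toSubalgebra] at h1
  have h2 : g ∈ Subalgebra.toSubmodule (Algebra.adjoin ℂ ({zc} ∪ star {zc} : Set C(Dd, ℂ))) := h1
  rw [Algebra.adjoin_eq_span, Set.star_singleton, Set.singleton_union] at h2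
  have h3 : ((Submonoid.closure ({zc, star zc} : Set C(Dd, ℂ)) : Submonoid C(Dd, ℂ)) :
      Set C(Dd, ℂ)) = Set.range (fun i : ℕ × ℕ => zc ^ i.1 * star zc ^ i.2) := by
    ext x
    rw [SetLike.mem_coe, Submonoid.mem_closure_pair]
    constructor
    · rintro ⟨m, n, h⟩; exact ⟨(m, n), h⟩
    · rintro ⟨⟨m, n⟩, h⟩; exact ⟨m, n, h⟩
  rw [h3, Finsupp.mem_span_range_iff_exists_finsupp] at h2
  obtain ⟨c, hc⟩ := h2
  refine ⟨c, fun z => ?_⟩
  rw [← hc, Finsupp.sum, ContinuousMap.coe_sum, Finset.sum_apply]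
  apply Finset.sum_congr rfl
  intro i _
  simp only [ContinuousMap.coe_smul, ContinuousMap.coe_mul, ContinuousMap.coe_pow, Pi.smul_apply,
    Pi.mul_apply, Pi.pow_apply, smul_eq_mul, zc_apply,
    ContinuousMap.coe_star, Pi.star_apply]
  rw [mul_assoc]
  rfl

theorem stw : StwStmt := by
  intro R δ hR hδ
  let f : C(Dd, ℂ) := ⟨fun z => R z, hR.comp continuous_subtype_val⟩
  have hf : f ∈ ((polynomialFunctions Dd).starClosure).topologicalClosure := by
    rw [polynomialFunctions.starClosure_topologicalClosure]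
    trivial
  have hf2 : f ∈ closure ((polynomialFunctions Dd).starClosure : Set C(Dd, ℂ)) := hf
  obtain ⟨g, hg, hd⟩ := Metric.mem_closure_iff.1 hf2 δ hδ
  obtain ⟨c, hc⟩ := form_of_mem hg
  refine ⟨(c.support.sup (fun i => max i.1 i.2)) + 1, fun a b => c (a, b), fun z hz => ?_⟩
  have hz' : z ∈ Dd := by
    rw [Metric.mem_closedBall, dist_zero_right]; exact hz
  have h1 : ‖f ⟨z, hz'⟩ - g ⟨z, hz'⟩‖ ≤ δ := by
    rw [← dist_eq_norm]
    exact (ContinuousMap.dist_apply_le_dist _).trans hd.le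
  rw [hc ⟨z, hz'⟩] at h1
  have h2 : ∑ i ∈ c.support, c i * z ^ i.1 * conj z ^ i.2 =
      ∑ a ∈ Finset.range ((c.support.sup (fun i => max i.1 i.2)) + 1),
        ∑ b ∈ Finset.range ((c.support.sup (fun i => max i.1 i.2)) + 1),
          c (a, b) * z ^ a * conj z ^ b := by
    rw [← Finset.sum_product']
    apply Finset.sum_subset
    · intro i hi
      have h3 : max i.1 i.2 ≤ c.support.sup (fun i => max i.1 i.2) :=
        Finset.le_sup (f := fun i : ℕ × ℕ => max i.1 i.2) hi
      rw [Finset.mem_product, Finset.mem_range, Finset.mem_range]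
      have h4 := le_max_left i.1 i.2
      have h5 := le_max_right i.1 i.2
      omega
    · intro i _ hi
      rw [Finsupp.notMem_support_iff] at hi
      rw [hi]
      ring
  rw [← h2]
  exact h1

end Pool.Agent.BCS.H37
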